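import Pool.Agent.H54.WB.Rules
import Pool.Agent.H8.MC.GTargets
import Pool.Agent.H76.ADV.Cal3

/-!
# Widths bounded by a function of the size: targets, first part (the hard side)
-/

set_option autoImplicit false

namespace Pool.Agent.H54.WB

open Pool.Agent.H69.Sp Pool.Agent.H69.VR Pool.Agent.H8.MC Pool.Agent.H8.JS Pool.Agent.H76.ADV
open Pool.Agent.H8.PL (GridF)

/-! ### bits, orders, grids -/

/-- bits -/
def T_BIT : Prop := ∀ n : ℕ, (∀ A, bv n A < 2 ^ n) ∧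
  (∀ A B, (∀ i < n, (A i ↔ B i)) ↔ bv n A = bv n B) ∧
  (∀ A B, (∃ i < n, ¬ A i ∧ B i ∧ ∀ j < n, i < j → (A j ↔ B j)) ↔ bv n A < bv n B) ∧
  (∀ A B, (∃ i < n, ¬ A i ∧ B i ∧ (∀ j < n, i < j → (A j ↔ B j)) ∧ ∀ j < i, A j ∧ ¬ B j) ↔
    bv n B = bv n A + 1) ∧
  (∀ A, (∀ i < n, ¬ A i) ↔ bv n A = 0) ∧ (∀ A, (∀ i < n, A i) ↔ bv n A + 1 = 2 ^ n) ∧
  (∀ A k, k ≤ n → ((∃ i < n, A i ∧ k ≤ i) ↔ 2 ^ k ≤ bv n A)) ∧
  ∀ a < 2 ^ n, bv n (fun i => a.testBit i = true) = a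

/-- the order of the core -/
def T_ORD : Prop := ∀ (V : Type) [Finite V] (E : V → V → Prop) (co ch : V → Prop), Chn E co ch →
  ∃ rk : V → ℕ, (∀ u v, co u → co v → (CLt E co ch u v ↔ rk u < rk v)) ∧
    Set.BijOn rk {v | co v} (Set.Iio {v | co v}.ncard) ∧ {c | ch c}.ncard = {v | co v}.ncard

/-- grids of cells give tilings of rectangles -/
def T_GRD : Prop := ∀ (V Q : Type) [Finite V] (U : Bool → Bool → Bool → Bool → Q → Prop)
  (Hh Vv : Q → Q → Prop) (cell : V → Prop) (Sm Sc : Bool → V → V → Prop) (Zr : Bool → V → Prop)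
  (ti : V → Q) (X : Bool → V → ℕ), GridR U Hh Vv cell Sm Sc Zr ti →
  (∀ s z w, cell z → cell w → (Sm s z w ↔ X s z = X s w) ∧ (Sc s z w ↔ X s w = X s z + 1)) →
  (∀ s z, cell z → (Zr s z ↔ X s z = 0)) →
    ∃ (W H : ℕ) (t : ℕ → ℕ → Q), 0 < W ∧ 0 < H ∧ (∀ z, cell z → X true z < W ∧ X false z < H) ∧
      (∀ i < W, ∃ z, cell z ∧ X true z = i) ∧ (∀ j < H, ∃ z, cell z ∧ X false z = j) ∧
      {z | cell z}.ncard = W * H ∧ GridF U Hh Vv W H t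

/-! ### nested binary numbers -/

section
variable {V Q : Type}

/-- the value of a number of level `l`; `rk` is the rank in the core, `d` the size of the core -/
noncomputable def vl (E : V → V → Prop) (ro : V → ℕ) (bt : V → Bool) (rk : V → ℕ) (d : ℕ) :
    ℕ → V → ℕ
  | 0, x => rk x
  | l + 1, x => bv (Tw l d) fun i => ∃ p, Pos E ro l x p ∧ vl E ro bt rk d l p = i ∧ On E bt l x p

/-- the relations of the numbers of level `l` are what they should be -/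
structure LOK (L : ℕ) (E : V → V → Prop) (ro : V → ℕ) (bt : V → Bool) (rk : V → ℕ) (d l : ℕ) :
    Prop where
  lt : ∀ x, ro x = l → vl E ro bt rk d l x < Tw l d
  sm : ∀ x y, ro x = l → ro y = l → (Same E ro bt l x y ↔ vl E ro bt rk d l x = vl E ro bt rk d l y)
  lo : ∀ x y, ro x = l → ro y = l →
    (Lt E ro bt (fun v => ro v = L + 2) l x y ↔ vl E ro bt rk d l x < vl E ro bt rk d l y)
  hi : ∀ x, ro x = l → (Hi E ro bt (fun v => ro v = L + 2) l x ↔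
    Tw l (d - 1) ≤ vl E ro bt rk d l x)
  sc : ∀ k, l = k + 1 → ∀ x y, ro x = l → ro y = l →
    (Suc E ro bt (fun v => ro v = L + 2) k x y ↔ vl E ro bt rk d l y = vl E ro bt rk d l x + 1)
  zr : ∀ k, l = k + 1 → ∀ x, ro x = l → (Zer E ro bt k x ↔ vl E ro bt rk d l x = 0) ∧
    (Max E ro bt k x ↔ vl E ro bt rk d l x + 1 = Tw l d)
  bij : ∀ x, ro x = l + 1 → l < L →
    Set.BijOn (vl E ro bt rk d l) {p | Pos E ro l x p} (Set.Iio (Tw l d))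

end

/-- level `0` -/
def T_KE0 : Prop := ∀ (V Q : Type) [Finite V] (L : ℕ) (U : Bool → Bool → Bool → Bool → Q → Prop)
  (Hh Vv : Q → Q → Prop) (E : V → V → Prop) (ro : V → ℕ) (bt mk : V → Bool) (ti : V → Q)
  (rk : V → ℕ), 1 ≤ L → TRule L U Hh Vv E ro bt mk ti →
  (∀ u v, ro u = 0 → ro v = 0 →
    (CLt E (fun v => ro v = 0) (fun v => ro v = L + 2) u v ↔ rk u < rk v)) →
  Set.BijOn rk {v | ro v = 0} (Set.Iio {v | ro v = 0}.ncard) →
    0 < {v | ro v = 0}.ncard ∧ LOK L E ro bt rk {v | ro v = 0}.ncard 0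

/-- from level `l` to level `l + 1` -/
def T_KES : Prop := ∀ (V Q : Type) [Finite V] (L : ℕ) (U : Bool → Bool → Bool → Bool → Q → Prop)
  (Hh Vv : Q → Q → Prop) (E : V → V → Prop) (ro : V → ℕ) (bt mk : V → Bool) (ti : V → Q)
  (rk : V → ℕ) (d l : ℕ), TRule L U Hh Vv E ro bt mk ti → 0 < d → l < L → LOK L E ro bt rk d l →
    LOK L E ro bt rk d (l + 1)

/-- the number of the vertices -/
def T_CTT : Prop := ∀ (V Q : Type) [Finite V] (L : ℕ) (U : Bool → Bool → Bool → Bool → Q → Prop)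
  (Hh Vv : Q → Q → Prop) (E : V → V → Prop) (ro : V → ℕ) (bt mk : V → Bool) (ti : V → Q)
  (rk : V → ℕ) (d : ℕ), (∀ u v, E u v → E v u) → 1 ≤ L → TRule L U Hh Vv E ro bt mk ti →
  {v | ro v = 0}.ncard = d → {v | ro v = L + 2}.ncard = d → (∀ l ≤ L, LOK L E ro bt rk d l) →
    Nat.card V = 2 * d + {z | ro z = L + 1}.ncard * (1 + 2 * sz d L)

/-- the grid of a model -/
def T_TSM : Prop := ∀ (V Q : Type) [Finite V] (L : ℕ) (U : Bool → Bool → Bool → Bool → Q → Prop)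
  (Hh Vv : Q → Q → Prop) (E : V → V → Prop) (ro : V → ℕ) (bt mk : V → Bool) (ti : V → Q),
  (∀ u v, E u v → E v u) → 1 ≤ L → TRule L U Hh Vv E ro bt mk ti →
    ∃ (d W H : ℕ) (t : ℕ → ℕ → Q), 0 < W ∧ 0 < H ∧ 0 < d ∧ Tw L (d - 1) < W ∧ W ≤ Tw L d ∧
      GridF U Hh Vv W H t ∧ {v | ro v = 0}.ncard = d ∧
        Nat.card V = 2 * d + W * H * (1 + 2 * sz d L)

/-- the tree-depth of a model -/
def T_TTD : Prop := ∀ (V Q : Type) [Finite V] (L : ℕ) (U : Bool → Bool → Bool → Bool → Q → Prop)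
  (Hh Vv : Q → Q → Prop) (G : SimpleGraph V) (ro : V → ℕ) (bt mk : V → Bool) (ti : V → Q),
  1 ≤ L → TRule L U Hh Vv G.Adj ro bt mk ti → TreeDepthLE G ({v | ro v = 0}.ncard + L + 1)

/-- models exist -/
def T_TEX : Prop := ∀ (Q : Type) (L : ℕ) (U : Bool → Bool → Bool → Bool → Q → Prop)
  (Hh Vv : Q → Q → Prop) (d K : ℕ) (t : ℕ → ℕ → Q), 1 ≤ L → 0 < d → Tw L (d - 1) < K →
  K ≤ Tw L d → GridF U Hh Vv K K t →
    ∃ (V : Type) (_ : Finite V) (G : SimpleGraph V) (ro : V → ℕ) (bt mk : V → Bool) (ti : V → Q),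
      TRule L U Hh Vv G.Adj ro bt mk ti ∧ {v | ro v = 0}.ncard = d ∧
        Nat.card V = 2 * d + K * K * (1 + 2 * sz d L)

/-- the rules are first-order definable -/
def T_TDF : Prop := ∀ (Q : Type) [Finite Q] (L : ℕ) (U : Bool → Bool → Bool → Bool → Q → Prop)
  (Hh Vv : Q → Q → Prop), 1 ≤ L →
    Df (Λ := Fin (L + 3) × Bool × Bool × Q) fun V lb E _ =>
      TRule L U Hh Vv E (fun v => ((lb v).1 : ℕ)) (fun v => (lb v).2.1) (fun v => (lb v).2.2.1)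
        (fun v => (lb v).2.2.2)

/-! ### digits given by the adjacency to a block -/

/-- the coordinates of the cells -/
def T_VKY : Prop := ∀ (V Q : Type) [Finite V] (κ : ℕ) (U : Bool → Bool → Bool → Bool → Q → Prop)
  (Hh Vv : Q → Q → Prop) (E : V → V → Prop) (ro : V → ℕ) (lo : Bool → V → ℕ) (ti : V → Q),
  VRule κ U Hh Vv E ro lo ti → ∃ X : Bool → V → ℕ, ∀ s, 0 < {v | ro v = cr s}.ncard ∧
    (∀ z, ro z = 4 → X s z < 2 ^ (κ + {v | ro v = cr s}.ncard)) ∧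
    (∀ z w, ro z = 4 → ro w = 4 → (VSame E ro lo s z w ↔ X s z = X s w) ∧
      (VSuc κ E ro lo s z w ↔ X s w = X s z + 1)) ∧
    (∀ z, ro z = 4 → (VZer E ro lo s z ↔ X s z = 0)) ∧
    ∃ z, ro z = 4 ∧ 2 ^ (κ + {v | ro v = cr s}.ncard - 1) ≤ X s z

/-- the grid and the vertex cover of a model -/
def T_VSM : Prop := ∀ (V Q : Type) [Finite V] (κ : ℕ) (U : Bool → Bool → Bool → Bool → Q → Prop)
  (Hh Vv : Q → Q → Prop) (G : SimpleGraph V) (ro : V → ℕ) (lo : Bool → V → ℕ) (ti : V → Q),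
  VRule κ U Hh Vv G.Adj ro lo ti →
    ∃ (b c W H : ℕ) (t : ℕ → ℕ → Q), 0 < W ∧ 0 < H ∧ 0 < b ∧ 0 < c ∧ 2 ^ (κ + b - 1) < W ∧
      W ≤ 2 ^ (κ + b) ∧ 2 ^ (κ + c - 1) < H ∧ H ≤ 2 ^ (κ + c) ∧ GridF U Hh Vv W H t ∧
        Nat.card V = 2 * b + 2 * c + W * H ∧ VertexCoverLE G (b + c)

/-- models exist -/
def T_VEX : Prop := ∀ (Q : Type) (κ : ℕ) (U : Bool → Bool → Bool → Bool → Q → Prop)
  (Hh Vv : Q → Q → Prop) (b K : ℕ) (t : ℕ → ℕ → Q), 0 < b → 2 ^ (κ + b - 1) < K →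
  K ≤ 2 ^ (κ + b) → GridF U Hh Vv K K t →
    ∃ (V : Type) (_ : Finite V) (G : SimpleGraph V) (ro : V → ℕ) (lo : Bool → V → ℕ) (ti : V → Q),
      VRule κ U Hh Vv G.Adj ro lo ti ∧ Nat.card V = 4 * b + K * K ∧ VertexCoverLE G (2 * b)

/-- the rules are first-order definable -/
def T_VDF : Prop := ∀ (Q : Type) [Finite Q] (κ : ℕ) (U : Bool → Bool → Bool → Bool → Q → Prop)
  (Hh Vv : Q → Q → Prop),
    Df (Λ := Fin 5 × (Bool → Fin (2 ^ κ)) × Q) fun V lb E _ =>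
      VRule κ U Hh Vv E (fun v => ((lb v).1 : ℕ)) (fun s v => ((lb v).2.1 s : ℕ))
        (fun v => (lb v).2.2)

/-! ### sizes -/

/-- the least `d` with `K ≤ Tw L d` -/
def dd (L K : ℕ) : ℕ := (Nat.clog 2)^[L] K

/-- the size of the models for the tree-depth -/
def gT (L K : ℕ) : ℕ := 2 * dd L K + K * K * (1 + 2 * sz (dd L K) L)

/-- the size of the models for the vertex cover number -/
def gV (κ K : ℕ) : ℕ := 4 * (Nat.clog 2 K - κ) + K * K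

/-- the size of the core -/
def T_DDU : Prop := (∀ L d K, 0 < d → Tw L (d - 1) < K → K ≤ Tw L d → d = dd L K) ∧
  (∀ L K, Tw L 0 < K → 0 < dd L K ∧ Tw L (dd L K - 1) < K ∧ K ≤ Tw L (dd L K)) ∧
  (∀ L d e, d ≤ e → Tw L d ≤ Tw L e) ∧ ∀ L d, d ≤ Tw L d

/-- the sizes are functions of the calculus -/
def T_GRT : Prop := (∀ L, 1 ≤ L → GR (gT L)) ∧ ∀ κ, GR (gV κ)

/-- the sizes grow -/
def T_MON : Prop := (∀ L, StrictMono (gT L)) ∧ ∀ κ, StrictMono (gV κ)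

/-- the core is small: tree-depth -/
def T_LGT : Prop := ∀ k, ∃ K₀, ∀ K, K₀ ≤ K → dd (k + 1) K + (k + 1) + 1 ≤ ilog k (gT (k + 1) K)

/-- the core is small: vertex cover number -/
def T_LGV : Prop := ∀ c K, c + 1 ≤ Nat.clog 2 K → 2 * (Nat.clog 2 K - (c + 1)) + c ≤ Nat.log 2 (gV (c + 1) K)

/-! ### from tilings to spectra -/

/-- first-order logic on labelled graphs and the logic `MS` -/
def T_LDF : Prop := ∀ (Λ : Type) [Finite Λ]
  (p : (V : Type) → (V → Λ) → (V → V → Prop) → Prop), Df (fun V lb E _ => p V lb E) →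
    ∃ Ψ : MS, (BinZero Ψ ∧ FirstOrder Ψ) ∧ ∀ (n : ℕ) (G : SimpleGraph (Fin n)), 0 < n →
      ((∃ P : ℕ → Fin n → Prop, ∀ (e : ℕ → Fin n) (V : ℕ → Set (Fin n)),
        Ψ.Sat P (fun _ => G.Adj) e V) ↔ ∃ lb : Fin n → Λ, p (Fin n) lb G.Adj)

/-- tilings of squares with side `K` are coded by graphs with `g K` vertices in the class `Cl` -/
def Codes (g : ℕ → ℕ) (Cl : GClass) : Prop :=
  ∀ (Q : Type) [Finite Q] (U : Bool → Bool → Bool → Bool → Q → Prop) (Hh Vv : Q → Q → Prop),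
    (∀ W H t, 0 < W → 0 < H → GridF U Hh Vv W H t → W = H) →
    ∃ Ψ : MS, (BinZero Ψ ∧ FirstOrder Ψ) ∧
      (∀ (n : ℕ) (G : SimpleGraph (Fin n)) (P : ℕ → Fin n → Prop), 0 < n →
        (∀ (e : ℕ → Fin n) (V : ℕ → Set (Fin n)), Ψ.Sat P (fun _ => G.Adj) e V) →
          ∃ K t, 0 < K ∧ n = g K ∧ GridF U Hh Vv K K t) ∧
      ∃ K₀, ∀ K, K₀ ≤ K → (∃ t, GridF U Hh Vv K K t) → ∃ (G : SimpleGraph (Fin (g K)))
        (P : ℕ → Fin (g K) → Prop), Cl (g K) G ∧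
          ∀ (e : ℕ → Fin (g K)) (V : ℕ → Set (Fin (g K))), Ψ.Sat P (fun _ => G.Adj) e V

/-- tree-depth -/
def T_CDT : Prop := ∀ k, Codes (gT (k + 1)) fun n G => TreeDepthLE G (ilog k n)

/-- vertex cover number -/
def T_CDV : Prop := ∀ c, Codes (gV (c + 1)) fun n G => ∃ k, k + c ≤ Nat.log 2 n ∧ VertexCoverLE G k

/-- transfer of spectra -/
def T_TRN : Prop := ∀ (g : ℕ → ℕ), GR g → (∀ m, m ≤ g m) → (∀ m m', 0 < m → 0 < m' →
  g m = g m' → m = m') → ∀ (S Y : Set ℕ), IsSpectrum S → (∀ n ∈ Y, ∃ m ∈ S, n = g m) →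
  (∃ m₀, ∀ m ∈ S, m₀ ≤ m → g m ∈ Y) →
    IsSpectrum Y ∧ (IsSpectrum (posCompl Y) ↔ IsSpectrum (posCompl S))

/-- a complete spectrum -/
def T_NEC : Prop := ∃ S, IsSpectrum S ∧ (IsSpectrum (posCompl S) ↔ NE = coNE)

/-- the question NE = coNE for the class `C` is the whole question -/
def Hard (Ψ : MS) (C : GClass) : Prop :=
  IsSpectrum (specF C Ψ) ∧ (IsSpectrum (posCompl (specF C Ψ)) ↔ NE = coNE)

/-- the hard side for a coding -/
def T_HAS : Prop := ∀ (g : ℕ → ℕ) (Cl : GClass), Codes g Cl → GR g → StrictMono g →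
  ∃ Ψ : MS, (BinZero Ψ ∧ FirstOrder Ψ) ∧ ∀ C : GClass,
    (∃ n₀, ∀ n, n₀ ≤ n → ∀ G : SimpleGraph (Fin n), Cl n G → C n G) → Hard Ψ C

/-- small tree-depth: small path-width and tree-width -/
def T_DPW : Prop := ∀ (V : Type) [Finite V] (G : SimpleGraph V) (k : ℕ), TreeDepthLE G k →
  PathWidthLE G k ∧ TreeWidthLE G k

end Pool.Agent.H54.WB
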