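import Pool.Agent.H54.WB.Main2
import Pool.Agent.H8.PL.All
import Pool.Agent.H1.WB.DDU
import Pool.Agent.H1.WB.GEX
import Pool.Agent.H1.WB.LOW
import Pool.Agent.H1.WB.MW2
import Pool.Agent.H1.WB.TSM
import Pool.Agent.H1.WB.TYC
import Pool.Agent.H10.WB.CTT
import Pool.Agent.H10.WB.NGS
import Pool.Agent.H10.WB.SOR
import Pool.Agent.H11.WB.LGV
import Pool.Agent.H12.WB.LDF
import Pool.Agent.H13.WB.VSM
import Pool.Agent.H19.WB.NFC
import Pool.Agent.H19.WB.NFE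
import Pool.Agent.H19.WB.WG1
import Pool.Agent.H21.WB.CDT
import Pool.Agent.H21.WB.CDV
import Pool.Agent.H27.WB.VTA
import Pool.Agent.H35.WB.WG2
import Pool.Agent.H36.WB.KE0
import Pool.Agent.H36.WB.PER
import Pool.Agent.H4.WB.DWN
import Pool.Agent.H42.WB.TRN
import Pool.Agent.H44.WB.KES
import Pool.Agent.H45.WB.LGF
import Pool.Agent.H45.WB.TWN
import Pool.Agent.H46.WB.NSO
import Pool.Agent.H54.WBP.ORD
import Pool.Agent.H54.WBP.WGS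
import Pool.Agent.H66.WB.MON
import Pool.Agent.H66.WB.NPD
import Pool.Agent.H66.WB.VDF
import Pool.Agent.H66.WB.VEX
import Pool.Agent.H67.WB.BIT
import Pool.Agent.H67.WB.HAS
import Pool.Agent.H67.WB.TAG
import Pool.Agent.H69.WB.BRU
import Pool.Agent.H69.WB.GRT
import Pool.Agent.H69.WB.TAM
import Pool.Agent.H69.WB.TDF
import Pool.Agent.H7.WB.MW1
import Pool.Agent.H7.WB.TEX
import Pool.Agent.H73.WB.DPW
import Pool.Agent.H76.WB.GRD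
import Pool.Agent.H79.WB.TDN
import Pool.Agent.H84.WB.NEC
import Pool.Agent.H94.WB.LGT
import Pool.Agent.H95.WB.TYF
import Pool.Agent.H98.WB.VKY
import Pool.Agent.H99.WB.PDK
import Pool.Agent.H99.WB.SOW
import Pool.Agent.H99.WB.TTD

/-!
# Widths bounded by a function of the size: all parts together
-/

set_option autoImplicit false

namespace Pool.Agent.H54.WB

open Pool.Agent

theorem w_BIT : T_BIT := H67.WB.pf_BIT
theorem w_LDF : T_LDF := H12.WB.pf_LDF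
theorem w_TDF : T_TDF := H69.WB.pf_TDF
theorem w_ORD : T_ORD := H54.WBP.pf_ORD
theorem w_KE0 : T_KE0 := H36.WB.pf_KE0
theorem w_KES : T_KES := H44.WB.pf_KES w_BIT
theorem w_CTT : T_CTT := H10.WB.pf_CTT
theorem w_GRD : T_GRD := H76.WB.pf_GRD
theorem w_TSM : T_TSM := H1.WB.pf_TSM w_ORD w_KE0 w_KES w_CTT w_GRD
theorem w_TTD : T_TTD := H99.WB.pf_TTD w_ORD
theorem w_TEX : T_TEX := H7.WB.pf_TEX w_BIT
theorem w_DDU : T_DDU := H1.WB.pf_DDU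
theorem w_LGT : T_LGT := H94.WB.pf_LGT w_DDU
theorem w_CDT : T_CDT := H21.WB.pf_CDT w_LDF w_TDF w_TSM w_TTD w_TEX w_DDU w_LGT
theorem w_VDF : T_VDF := H66.WB.pf_VDF
theorem w_VKY : T_VKY := H98.WB.pf_VKY w_BIT w_ORD
theorem w_VSM : T_VSM := H13.WB.pf_VSM w_VKY w_ORD w_GRD
theorem w_VEX : T_VEX := H66.WB.pf_VEX w_BIT
theorem w_LGV : T_LGV := H11.WB.pf_LGV
theorem w_CDV : T_CDV := H21.WB.pf_CDV w_LDF w_VDF w_VSM w_VEX w_LGV
theorem w_DPW : T_DPW := H73.WB.pf_DPW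
theorem w_GRT : T_GRT := H69.WB.pf_GRT w_DDU
theorem w_TRN : T_TRN := H42.WB.pf_TRN
theorem w_NEC : T_NEC := H84.WB.pf_NEC
theorem w_HAS : T_HAS := H67.WB.pf_HAS H8.PL.z_sq w_TRN w_NEC
theorem w_MON : T_MON := H66.WB.pf_MON
theorem w_SOR : T_SOR := H10.WB.pf_SOR
theorem w_NFE : T_NFE := H19.WB.pf_NFE
theorem w_NFC : T_NFC := H19.WB.pf_NFC
theorem w_SOW : T_SOW := H99.WB.pf_SOW w_NFE w_NFC
theorem w_BRU : T_BRU := H69.WB.pf_BRU w_SOR w_SOW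
theorem w_DWN : T_DWN := H4.WB.pf_DWN
theorem w_GEX : T_GEX := H1.WB.pf_GEX
theorem w_LGF : T_LGF := H45.WB.pf_LGF
theorem w_LOW : T_LOW := H1.WB.pf_LOW w_DDU
theorem w_WG1 : T_WG1 := H19.WB.pf_WG1
theorem w_WG2 : T_WG2 := H35.WB.pf_WG2
theorem w_WGS : T_WGS := H54.WBP.pf_WGS w_NFE w_GEX w_WG1 w_WG2
theorem w_PER : T_PER := H36.WB.pf_PER w_DWN
theorem w_TYC : T_TYC := H1.WB.pf_TYC w_DDU
theorem w_PDK : T_PDK := H99.WB.pf_PDK w_WGS w_PER w_TYC w_DDU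
theorem w_TAM : T_TAM := H69.WB.pf_TAM w_PDK w_BRU w_LOW w_LGF
theorem w_TWN : T_TWN := H45.WB.pf_TWN
theorem w_VTA : T_VTA := H27.WB.pf_VTA w_TWN
theorem w_MW1 : T_MW1 := H7.WB.pf_MW1
theorem w_MW2 : T_MW2 := H1.WB.pf_MW2
theorem w_NGS : T_NGS := H10.WB.pf_NGS
theorem w_TYF : T_TYF := H95.WB.pf_TYF w_DDU
theorem w_NPD : T_NPD := H66.WB.pf_NPD w_NGS w_PER w_TYF w_DDU
theorem w_NSO : T_NSO := H46.WB.pf_NSO w_MW1 w_MW2
theorem w_TAG : T_TAG := H67.WB.pf_TAG w_LOW w_LGF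
theorem w_NTM : T_NTM := H66.WB.pf_NTM w_TAG w_NPD w_NSO w_SOR
theorem w_TDN : T_TDN := H79.WB.pf_TDN w_NFE w_GEX w_WG1

theorem all : T_ALL := all_of w_TAM w_CDT w_CDV w_HAS w_GRT w_MON w_DPW w_VTA

theorem fin : T_FIN := fin_of all w_NTM w_TDN w_DPW

end Pool.Agent.H54.WB
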