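import Mathlib

/-!
# First-order logic on labelled graphs
-/

set_option autoImplicit false

namespace Pool.Agent.H54.WB

/-- first-order formulas over labelled graphs; the labels are in `Λ` -/
inductive LF (Λ : Type) : Type
  | lab (s : Λ → Prop) (x : ℕ) : LF Λ
  | adj (x y : ℕ) : LF Λ
  | eq (x y : ℕ) : LF Λ
  | neg (φ : LF Λ) : LF Λ
  | and (φ ψ : LF Λ) : LF Λ
  | ex (x : ℕ) (φ : LF Λ) : LF Λ

/-- satisfaction -/
def LF.Sat {Λ V : Type} (lb : V → Λ) (E : V → V → Prop) : LF Λ → (ℕ → V) → Prop
  | .lab s x, e => s (lb (e x))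
  | .adj x y, e => E (e x) (e y)
  | .eq x y, e => e x = e y
  | .neg φ, e => ¬ φ.Sat lb E e
  | .and φ ψ, e => φ.Sat lb E e ∧ ψ.Sat lb E e
  | .ex x φ, e => ∃ a : V, φ.Sat lb E (Function.update e x a)

/-- properties of valuations in labelled graphs -/
abbrev LP (Λ : Type) : Type 1 := (V : Type) → (V → Λ) → (V → V → Prop) → (ℕ → V) → Prop

/-- the property is first-order definable -/
def Df {Λ : Type} (p : LP Λ) : Prop :=
  ∃ φ : LF Λ, ∀ (V : Type) (lb : V → Λ) (E : V → V → Prop) (e : ℕ → V), φ.Sat lb E e ↔ p V lb E e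

variable {Λ : Type} {p q : LP Λ}

theorem Df.congr (hp : Df p) (h : ∀ V lb E e, p V lb E e ↔ q V lb E e) : Df q := by
  obtain ⟨φ, hφ⟩ := hp
  exact ⟨φ, fun V lb E e => (hφ V lb E e).trans (h V lb E e)⟩

theorem Df.lab (s : Λ → Prop) (x : ℕ) : Df (fun _ lb _ e => s (lb (e x))) :=
  ⟨.lab s x, fun _ _ _ _ => Iff.rfl⟩

theorem Df.adj (x y : ℕ) : Df (Λ := Λ) (fun _ _ E e => E (e x) (e y)) :=
  ⟨.adj x y, fun _ _ _ _ => Iff.rfl⟩

theorem Df.eq (x y : ℕ) : Df (Λ := Λ) (fun _ _ _ e => e x = e y) :=
  ⟨.eq x y, fun _ _ _ _ => Iff.rfl⟩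

theorem Df.not (hp : Df p) : Df (fun V lb E e => ¬ p V lb E e) := by
  obtain ⟨φ, hφ⟩ := hp
  exact ⟨.neg φ, fun V lb E e => not_congr (hφ V lb E e)⟩

theorem Df.and (hp : Df p) (hq : Df q) : Df (fun V lb E e => p V lb E e ∧ q V lb E e) := by
  obtain ⟨φ, hφ⟩ := hp
  obtain ⟨ψ, hψ⟩ := hq
  exact ⟨.and φ ψ, fun V lb E e => and_congr (hφ V lb E e) (hψ V lb E e)⟩

theorem Df.or (hp : Df p) (hq : Df q) : Df (fun V lb E e => p V lb E e ∨ q V lb E e) :=
  (hp.not.and hq.not).not.congr fun V lb E e => by tauto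

theorem Df.imp (hp : Df p) (hq : Df q) : Df (fun V lb E e => p V lb E e → q V lb E e) :=
  (hp.not.or hq).congr fun V lb E e => by tauto

theorem Df.iff (hp : Df p) (hq : Df q) : Df (fun V lb E e => p V lb E e ↔ q V lb E e) :=
  ((hp.imp hq).and (hq.imp hp)).congr fun V lb E e => by tauto

/-- quantifiers: `z` is the variable for the bound element -/
theorem Df.exU (z : ℕ) (hp : Df p) : Df (fun V lb E e => ∃ a, p V lb E (Function.update e z a)) := by
  obtain ⟨φ, hφ⟩ := hp
  exact ⟨.ex z φ, fun V lb E e => exists_congr fun a => hφ V lb E _⟩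

theorem Df.allU (z : ℕ) (hp : Df p) : Df (fun V lb E e => ∀ a, p V lb E (Function.update e z a)) :=
  (hp.not.exU z).not.congr fun V lb E e => by
    rw [not_exists]
    exact forall_congr' fun a => not_not

theorem Df.tt : Df (Λ := Λ) (fun _ _ _ _ => True) :=
  ((Df.eq 0 0).or (Df.eq 0 0).not).congr fun V lb E e => by simp

theorem Df.const (a : Prop) : Df (Λ := Λ) (fun _ _ _ _ => a) := by
  by_cases h : a
  · exact Df.tt.congr fun V lb E e => by simp [h]
  · exact Df.tt.not.congr fun V lb E e => by simp [h]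

/-- finite conjunctions -/
theorem Df.allF {ι : Type} [Finite ι] {r : ι → LP Λ} (h : ∀ i, Df (r i)) :
    Df (fun V lb E e => ∀ i, r i V lb E e) := by
  classical
  haveI := Fintype.ofFinite ι
  have key : ∀ s : Finset ι, Df (fun V lb E e => ∀ i ∈ s, r i V lb E e) := by
    intro s
    induction s using Finset.induction_on with
    | empty => exact Df.tt.congr fun V lb E e => by simp
    | insert a s ha ih => exact ((h a).and ih).congr fun V lb E e => by simp
  exact (key Finset.univ).congr fun V lb E e => by simp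

theorem Df.exF {ι : Type} [Finite ι] {r : ι → LP Λ} (h : ∀ i, Df (r i)) :
    Df (fun V lb E e => ∃ i, r i V lb E e) :=
  (Df.allF fun i => (h i).not).not.congr fun V lb E e => by
    rw [not_forall]
    exact exists_congr fun i => not_not

/-- a quantifier with a body which depends on the bound element and on the values of the variables
`x ∈ f`; the variable `z` must be different from all of them -/
theorem Df.exV {κ : Type} {r : (V : Type) → (V → Λ) → (V → V → Prop) → V → (κ → V) → Prop}
    (f : κ → ℕ) (z : ℕ) (hz : ∀ i, f i ≠ z)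
    (h : Df (fun V lb E e => r V lb E (e z) (fun i => e (f i)))) :
    Df (fun V lb E e => ∃ a, r V lb E a (fun i => e (f i))) :=
  (h.exU z).congr fun V lb E e => by
    refine exists_congr fun a => ?_
    rw [Function.update_self]
    have : (fun i => Function.update e z a (f i)) = fun i => e (f i) := by
      funext i
      exact Function.update_of_ne (hz i) _ _
    rw [this]

theorem Df.allV {κ : Type} {r : (V : Type) → (V → Λ) → (V → V → Prop) → V → (κ → V) → Prop}
    (f : κ → ℕ) (z : ℕ) (hz : ∀ i, f i ≠ z)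
    (h : Df (fun V lb E e => r V lb E (e z) (fun i => e (f i)))) :
    Df (fun V lb E e => ∀ a, r V lb E a (fun i => e (f i))) :=
  (h.allU z).congr fun V lb E e => by
    refine forall_congr' fun a => ?_
    rw [Function.update_self]
    have : (fun i => Function.update e z a (f i)) = fun i => e (f i) := by
      funext i
      exact Function.update_of_ne (hz i) _ _
    rw [this]

end Pool.Agent.H54.WB
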