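import Pool.Agent.H8.MC.Defs

/-!
# Width parameters which are bounded by a function of the number of the vertices

Tree-depth, path-width and tree-width are defined by elimination forests: strict orders `anc` of a
rooted forest on the set of the vertices (`anc u v`: `u` is a proper ancestor of `v`) such that
adjacent vertices are comparable.
-/

set_option autoImplicit false

namespace Pool.Agent.H54.WB

open Pool.Agent.H8.MC

section
variable {V : Type}

/-- `anc u v` says that `u` is a proper ancestor of `v` in a rooted forest with the vertices `V`. -/
structure IsForest (anc : V → V → Prop) : Prop where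
  irrefl : ∀ v, ¬ anc v v
  trans : ∀ u v w, anc u v → anc v w → anc u w
  chain : ∀ u v w, anc u w → anc v w → u = v ∨ anc u v ∨ anc v u

/-- An elimination forest of the graph: adjacent vertices are comparable. -/
def Elim (G : SimpleGraph V) (anc : V → V → Prop) : Prop :=
  IsForest anc ∧ ∀ u v, G.Adj u v → anc u v ∨ anc v u

/-- The ancestors of `v` which are adjacent to `v` or to a descendant of `v`. -/
def front (G : SimpleGraph V) (anc : V → V → Prop) (v : V) : Set V :=
  {u | anc u v ∧ ∃ w, (w = v ∨ anc v w) ∧ G.Adj u w}

/-- The tree-depth is at most `k`: in some elimination forest each vertex has at most `k - 1`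
ancestors. -/
def TreeDepthLE (G : SimpleGraph V) (k : ℕ) : Prop :=
  ∃ anc, Elim G anc ∧ ∀ v, {u | anc u v}.ncard < k

/-- The tree-width is at most `k`: there is an elimination forest in which for each vertex `v` at most
`k` ancestors of `v` are adjacent to `v` or to a descendant of `v`. -/
def TreeWidthLE (G : SimpleGraph V) (k : ℕ) : Prop :=
  ∃ anc, Elim G anc ∧ ∀ v, (front G anc v).ncard ≤ k

/-- The path-width is at most `k`: the same with a linear order. -/
def PathWidthLE (G : SimpleGraph V) (k : ℕ) : Prop :=
  ∃ anc, Elim G anc ∧ (∀ u v, u = v ∨ anc u v ∨ anc v u) ∧ ∀ v, (front G anc v).ncard ≤ k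

/-- The vertex cover number is at most `k`: at most `k` vertices meet all edges. -/
def VertexCoverLE (G : SimpleGraph V) (k : ℕ) : Prop :=
  ∃ X : Set V, X.ncard ≤ k ∧ ∀ u v, G.Adj u v → u ∈ X ∨ v ∈ X

end

/-- The three width parameters. -/
inductive Width : Type
  | depth : Width
  | path : Width
  | tree : Width

/-- The parameter is at most `k`. -/
def Width.LE : Width → {V : Type} → SimpleGraph V → ℕ → Prop
  | .depth, _, G, k => TreeDepthLE G k
  | .path, _, G, k => PathWidthLE G k
  | .tree, _, G, k => TreeWidthLE G k

/-- The finite graphs in which the parameter is at most `f n`, for `n` vertices. -/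
def Width.upTo (W : Width) (f : ℕ → ℕ) : GClass := fun n G => W.LE G (f n)

/-- The finite graphs in which the vertex cover number is at most `f n`, for `n` vertices. -/
def coverUpTo (f : ℕ → ℕ) : GClass := fun n G => VertexCoverLE G (f n)

/-- The graph of the function `f` is (coded by) the spectrum of a first-order sentence. -/
def SpecFun (f : ℕ → ℕ) : Prop := Pool.Agent.H69.Sp.IsSpectrum {n | ∃ N, 0 < N ∧ n = Nat.pair N (f N)}

/-- The logarithm to base 2 (rounded down), iterated `k` times. -/
def ilog (k n : ℕ) : ℕ := (Nat.log 2)^[k] n

end Pool.Agent.H54.WB
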