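import Pool.Agent.H54.WB.TargetsB

/-!
# Widths bounded by a function of the size: the theorem from its parts
-/

set_option autoImplicit false

namespace Pool.Agent.H54.WB

open Pool.Agent.H69.Sp Pool.Agent.H69.VR Pool.Agent.H8.VR Pool.Agent.H8.MC Pool.Agent.H8.JS
open Pool.Agent.H76.ADV
open Pool.Agent.H8.MP (EvPer Der)

theorem TreeDepthLE.mono {V : Type} {G : SimpleGraph V} {k l : ℕ} (hkl : k ≤ l)
    (h : TreeDepthLE G k) : TreeDepthLE G l := by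
  obtain ⟨anc, h1, h2⟩ := h
  exact ⟨anc, h1, fun v => lt_of_lt_of_le (h2 v) hkl⟩

theorem PathWidthLE.mono {V : Type} {G : SimpleGraph V} {k l : ℕ} (hkl : k ≤ l)
    (h : PathWidthLE G k) : PathWidthLE G l := by
  obtain ⟨anc, h1, h2, h3⟩ := h
  exact ⟨anc, h1, h2, fun v => (h3 v).trans hkl⟩

theorem TreeWidthLE.mono {V : Type} {G : SimpleGraph V} {k l : ℕ} (hkl : k ≤ l)
    (h : TreeWidthLE G k) : TreeWidthLE G l := by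
  obtain ⟨anc, h1, h2⟩ := h
  exact ⟨anc, h1, fun v => (h2 v).trans hkl⟩

theorem VertexCoverLE.mono {V : Type} {G : SimpleGraph V} {k l : ℕ} (hkl : k ≤ l)
    (h : VertexCoverLE G k) : VertexCoverLE G l := by
  obtain ⟨X, h1, h2⟩ := h
  exact ⟨X, h1.trans hkl, h2⟩

/-- small tree-depth makes all three parameters small -/
theorem width_of_depth (hDPW : T_DPW) (W : Width) {V : Type} [Finite V] {G : SimpleGraph V}
    {k l : ℕ} (hkl : k ≤ l) (h : TreeDepthLE G k) : W.LE G l := by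
  cases W with
  | depth => exact h.mono hkl
  | path => exact (hDPW V G k h).1.mono hkl
  | tree => exact (hDPW V G k h).2.mono hkl

/-- the theorem -/
def T_ALL : Prop :=
  (∀ (W : Width) (f : ℕ → ℕ), (∀ k, ∃ n₀, ∀ n, n₀ ≤ n → f n ≤ ilog k n) → SpecFun f →
    ∀ Ψ : MS, BinZero Ψ →
      IsSpectrum (specF (W.upTo f) Ψ) ∧ IsSpectrum (posCompl (specF (W.upTo f) Ψ))) ∧
  (∀ k, ∃ Ψ : MS, (BinZero Ψ ∧ FirstOrder Ψ) ∧
    (∀ (W : Width) (f : ℕ → ℕ), (∃ n₀, ∀ n, n₀ ≤ n → ilog k n ≤ f n) → Hard Ψ (W.upTo f)) ∧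
    ∀ C : GClass, (∃ n₀, ∀ n, n₀ ≤ n → ∀ G : SimpleGraph (Fin n),
      TreeDepthLE G (ilog k n) → C n G) → Hard Ψ C) ∧
  (∀ f : ℕ → ℕ, Monotone f → (∀ c, ∃ n₀, ∀ n, n₀ ≤ n → f n + c ≤ Nat.log 2 n) →
    ∀ Ψ : MS, BinZero Ψ → EvPer (specF (coverUpTo f) Ψ)) ∧
  ∀ c, ∃ Ψ : MS, (BinZero Ψ ∧ FirstOrder Ψ) ∧
    (∀ f : ℕ → ℕ, (∃ n₀, ∀ n, n₀ ≤ n → Nat.log 2 n ≤ f n + c) → Hard Ψ (coverUpTo f)) ∧
    ∀ C : GClass, (∃ n₀, ∀ n, n₀ ≤ n → ∀ (G : SimpleGraph (Fin n)) (k : ℕ),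
      k + c ≤ Nat.log 2 n → VertexCoverLE G k → C n G) → Hard Ψ C

theorem all_of (hTAM : T_TAM) (hCDT : T_CDT) (hCDV : T_CDV) (hHAS : T_HAS) (hGRT : T_GRT)
    (hMON : T_MON) (hDPW : T_DPW) (hVTA : T_VTA) : T_ALL := by
  refine ⟨hTAM, fun k => ?_, hVTA, fun c => ?_⟩
  · obtain ⟨Ψ, h1, h2⟩ := hHAS (gT (k + 1)) _ (hCDT k) (hGRT.1 (k + 1) (by omega))
      (hMON.1 (k + 1))
    refine ⟨Ψ, h1, fun W f hf => ?_, fun C hC => ?_⟩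
    · obtain ⟨n₀, hn⟩ := hf
      exact h2 _ ⟨n₀, fun n hn0 G hG => width_of_depth hDPW W (hn n hn0) hG⟩
    · exact h2 C hC
  · obtain ⟨Ψ, h1, h2⟩ := hHAS (gV (c + 1)) _ (hCDV c) (hGRT.2 (c + 1)) (hMON.2 (c + 1))
    refine ⟨Ψ, h1, fun f hf => ?_, fun C hC => ?_⟩
    · obtain ⟨n₀, hn⟩ := hf
      refine h2 _ ⟨n₀, fun n hn0 G hG => ?_⟩
      obtain ⟨k, hk, hG⟩ := hG
      have := hn n hn0
      exact hG.mono (by omega)
    · obtain ⟨n₀, hn⟩ := hC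
      refine h2 C ⟨n₀, fun n hn0 G hG => ?_⟩
      obtain ⟨k, hk, hG⟩ := hG
      exact hn n hn0 G k hk hG

end Pool.Agent.H54.WB
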