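import Pool.Agent.H54.WB.TargetsC
import Pool.Agent.H54.WB.Main

/-!
# Widths bounded by a function of the size: the theorem with four parameters
-/

set_option autoImplicit false

namespace Pool.Agent.H54.WB

open Pool.Agent.H69.Sp Pool.Agent.H69.VR Pool.Agent.H8.VR Pool.Agent.H8.MC Pool.Agent.H8.JS
open Pool.Agent.H76.ADV
open Pool.Agent.H8.MP (EvPer Der)

/-- The module-width (Rao) is at most `k`: the graph is built with `k` colours from single vertices by
operations which put two graphs side by side, add edges between them according to the colours, and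
recolour the two graphs. This is the clique-width up to a factor 2. -/
def ModuleWidthLE {V : Type} (G : SimpleGraph V) (k : ℕ) : Prop :=
  ∃ c, NLC k 1 (fun _ => G.Adj) Set.univ c

/-- The four parameters. -/
inductive Param : Type
  | treeDepth : Param
  | pathWidth : Param
  | treeWidth : Param
  | moduleWidth : Param

/-- The parameter is at most `k`. -/
def Param.LE : Param → {V : Type} → SimpleGraph V → ℕ → Prop
  | .treeDepth, _, G, k => TreeDepthLE G k
  | .pathWidth, _, G, k => PathWidthLE G k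
  | .treeWidth, _, G, k => TreeWidthLE G k
  | .moduleWidth, _, G, k => ModuleWidthLE G k

/-- The finite graphs in which the parameter is at most `f n`, for `n` vertices. -/
def Param.upTo (p : Param) (f : ℕ → ℕ) : GClass := fun n G => p.LE G (f n)

/-- iterated logarithms tend to infinity -/
theorem ilog_large (k M : ℕ) : ∃ n₀, ∀ n, n₀ ≤ n → M ≤ ilog k n := by
  refine ⟨Tw k M, fun n hn => ?_⟩
  unfold ilog
  induction k generalizing n with
  | zero => exact hn
  | succ k ih =>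
    rw [Function.iterate_succ_apply]
    refine ih _ ?_
    have h : 2 ^ Tw k M ≤ n := hn
    exact Nat.le_log_of_pow_le (by norm_num) h

/-- the theorem -/
def T_FIN : Prop :=
  (∀ (p : Param) (f : ℕ → ℕ), (∀ k, ∃ n₀, ∀ n, n₀ ≤ n → f n ≤ ilog k n) → SpecFun f →
    ∀ Ψ : MS, BinZero Ψ →
      IsSpectrum (specF (p.upTo f) Ψ) ∧ IsSpectrum (posCompl (specF (p.upTo f) Ψ))) ∧
  (∀ k, ∃ Ψ : MS, (BinZero Ψ ∧ FirstOrder Ψ) ∧
    (∀ (p : Param) (f : ℕ → ℕ), (∃ n₀, ∀ n, n₀ ≤ n → ilog k n ≤ f n) → Hard Ψ (p.upTo f)) ∧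
    ∀ C : GClass, (∃ n₀, ∀ n, n₀ ≤ n → ∀ G : SimpleGraph (Fin n),
      TreeDepthLE G (ilog k n) → C n G) → Hard Ψ C) ∧
  (∀ f : ℕ → ℕ, Monotone f → (∀ c, ∃ n₀, ∀ n, n₀ ≤ n → f n + c ≤ Nat.log 2 n) →
    ∀ Ψ : MS, BinZero Ψ → EvPer (specF (coverUpTo f) Ψ)) ∧
  ∀ c, ∃ Ψ : MS, (BinZero Ψ ∧ FirstOrder Ψ) ∧
    (∀ f : ℕ → ℕ, (∃ n₀, ∀ n, n₀ ≤ n → Nat.log 2 n ≤ f n + c) → Hard Ψ (coverUpTo f)) ∧
    ∀ C : GClass, (∃ n₀, ∀ n, n₀ ≤ n → ∀ (G : SimpleGraph (Fin n)) (k : ℕ),
      k + c ≤ Nat.log 2 n → VertexCoverLE G k → C n G) → Hard Ψ C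

theorem fin_of (hA : T_ALL) (hNTM : T_NTM) (hTDN : T_TDN) (hDPW : T_DPW) : T_FIN := by
  obtain ⟨h1, h2, h3, h4⟩ := hA
  refine ⟨fun p f hf hs Ψ hΨ => ?_, fun k => ?_, h3, h4⟩
  · cases p with
    | treeDepth => exact h1 .depth f hf hs Ψ hΨ
    | pathWidth => exact h1 .path f hf hs Ψ hΨ
    | treeWidth => exact h1 .tree f hf hs Ψ hΨ
    | moduleWidth => exact hNTM f hf hs Ψ hΨ
  · obtain ⟨Ψ, hΨ, -, hC⟩ := h2 (k + 1)
    have hlog : ∀ n, ilog (k + 1) n = Nat.log 2 (ilog k n) := fun n => by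
      unfold ilog
      rw [Function.iterate_succ_apply']
    have hle : ∀ n, ilog (k + 1) n ≤ ilog k n := fun n => by
      rw [hlog]
      exact Nat.log_le_self 2 _
    refine ⟨Ψ, hΨ, fun p f hf => ?_, fun C hCC => ?_⟩
    · obtain ⟨n₀, hn⟩ := hf
      obtain ⟨n₁, hn1⟩ := ilog_large k 1
      refine hC _ ⟨n₀ + n₁ + 1, fun n hn0 G hG => ?_⟩
      have h5 := hn n (by omega)
      have h6 := hn1 n (by omega)
      cases p with
      | treeDepth => exact hG.mono ((hle n).trans h5)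
      | pathWidth => exact (hDPW _ G _ hG).1.mono ((hle n).trans h5)
      | treeWidth => exact (hDPW _ G _ hG).2.mono ((hle n).trans h5)
      | moduleWidth =>
        have : Nonempty (Fin n) := ⟨⟨0, by omega⟩⟩
        refine hTDN.2 _ G _ _ ?_ (hTDN.1 (Fin n) G _ hG)
        rw [hlog]
        exact (Nat.pow_log_le_self 2 (by omega)).trans h5
    · obtain ⟨n₀, hn⟩ := hCC
      exact hC C ⟨n₀, fun n hn0 G hG => hn n hn0 G (hG.mono (hle n))⟩

end Pool.Agent.H54.WB
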