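import Pool.Agent.H8.PL.Sys
import Pool.Agent.H54.WB.Defs
import Pool.Agent.H54.WB.Basics

/-!
# The rules for grids of cells whose coordinates are numbers coded by graphs
-/

set_option autoImplicit false

namespace Pool.Agent.H54.WB

open Pool.Agent.H8.PL (GridF)

/-! ### bits -/

/-- the number with the bits `A i`, `i < n` -/
noncomputable def bv (n : ℕ) (A : ℕ → Prop) : ℕ := by
  classical
  exact ∑ i ∈ Finset.range n, if A i then 2 ^ i else 0

/-- towers -/
def Tw : ℕ → ℕ → ℕ
  | 0, d => d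
  | l + 1, d => 2 ^ Tw l d

/-- the number of the vertices of a number of level `l` -/
def sz (d : ℕ) : ℕ → ℕ
  | 0 => 0
  | l + 1 => 1 + Tw l d * sz d l

/-! ### the order of the core -/

section
variable {V Q : Type}

/-- `u` is before `v` in the core -/
def CLt (E : V → V → Prop) (co ch : V → Prop) (u v : V) : Prop :=
  co u ∧ co v ∧ ∃ c, ch c ∧ E c u ∧ ¬ E c v

/-- the vertices in `ch` are adjacent to the initial segments `{u | u < v}` of the core -/
structure Chn (E : V → V → Prop) (co ch : V → Prop) : Prop where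
  asym : ∀ u v, CLt E co ch u v → ¬ CLt E co ch v u
  tot : ∀ u v, co u → co v → u ≠ v → CLt E co ch u v ∨ CLt E co ch v u
  ex : ∀ v, co v → ∃ c, ch c ∧ ∀ u, co u → (E c u ↔ CLt E co ch u v)
  un : ∀ v, co v → ∀ c c', ch c → ch c' → (∀ u, co u → (E c u ↔ CLt E co ch u v)) →
    (∀ u, co u → (E c' u ↔ CLt E co ch u v)) → c = c'
  all : ∀ c, ch c → ∃ v, co v ∧ ∀ u, co u → (E c u ↔ CLt E co ch u v)

/-! ### grids of cells -/

/-- the rules for a grid of tiled cells: `Sm s z z'` says that the coordinates `s` of `z` and `z'` are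
equal (`s = true`: the column, `s = false`: the row), `Sc s z z'` that the coordinate of `z'` is the
successor of that of `z`, `Zr s z` that the coordinate is `0` -/
structure GridR (U : Bool → Bool → Bool → Bool → Q → Prop) (Hh Vv : Q → Q → Prop)
    (cell : V → Prop) (Sm Sc : Bool → V → V → Prop) (Zr : Bool → V → Prop) (ti : V → Q) : Prop where
  gi : ∀ z z', cell z → cell z' → Sm true z z' → Sm false z z' → z = z'
  gp : ∀ z z', cell z → cell z' → ∃ w, cell w ∧ Sm true z w ∧ Sm false z' w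
  gd : ∀ s z, cell z → Zr s z ∨ ∃ w, cell w ∧ Sc s w z
  ne : ∃ z, cell z
  un : ∀ z, cell z → ∀ a b c d : Bool, (a = true ↔ Zr true z) →
    (b = true ↔ ¬ ∃ w, cell w ∧ Sc true z w) → (c = true ↔ Zr false z) →
    (d = true ↔ ¬ ∃ w, cell w ∧ Sc false z w) → U a b c d (ti z)
  hh : ∀ z z', cell z → cell z' → Sc true z z' → Sm false z z' → Hh (ti z) (ti z')
  vv : ∀ z z', cell z → cell z' → Sm true z z' → Sc false z z' → Vv (ti z) (ti z')

/-! ### numbers of level `l`: nested binary numbers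

`ro v` is the role of `v`: `0` for the core, `1, …, L` for the numbers of level `1, …, L`, `L + 1` for
the cells and `L + 2` for the chain. The objects of level `0` are the vertices of the core. -/

/-- `p` is a position of the number `x` of level `l + 1` -/
def Pos (E : V → V → Prop) (ro : V → ℕ) : ℕ → V → V → Prop
  | 0, _, p => ro p = 0
  | l + 1, x, p => E x p ∧ ro p = l + 1

/-- the bit of `x` at the position `p` is `1` -/
def On (E : V → V → Prop) (bt : V → Bool) : ℕ → V → V → Prop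
  | 0, x, p => E x p
  | _ + 1, _, p => bt p = true

/-- equality of numbers of level `l` -/
def Same (E : V → V → Prop) (ro : V → ℕ) (bt : V → Bool) : ℕ → V → V → Prop
  | 0, x, y => x = y
  | l + 1, x, y => ∀ p q, Pos E ro l x p → Pos E ro l y q → Same E ro bt l p q →
      (On E bt l x p ↔ On E bt l y q)

/-- order of numbers of level `l` -/
def Lt (E : V → V → Prop) (ro : V → ℕ) (bt : V → Bool) (ch : V → Prop) : ℕ → V → V → Prop
  | 0, x, y => CLt E (fun v => ro v = 0) ch x y
  | l + 1, x, y => ∃ p q, Pos E ro l x p ∧ Pos E ro l y q ∧ Same E ro bt l p q ∧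
      ¬ On E bt l x p ∧ On E bt l y q ∧
      ∀ p' q', Pos E ro l x p' → Pos E ro l y q' → Same E ro bt l p' q' →
        Lt E ro bt ch l p p' → (On E bt l x p' ↔ On E bt l y q')

/-- `y` is the successor of `x` (numbers of level `l + 1`) -/
def Suc (E : V → V → Prop) (ro : V → ℕ) (bt : V → Bool) (ch : V → Prop) (l : ℕ) (x y : V) : Prop :=
  ∃ p q, Pos E ro l x p ∧ Pos E ro l y q ∧ Same E ro bt l p q ∧ ¬ On E bt l x p ∧ On E bt l y q ∧
    ∀ p' q', Pos E ro l x p' → Pos E ro l y q' → Same E ro bt l p' q' →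
      (Lt E ro bt ch l p p' → (On E bt l x p' ↔ On E bt l y q')) ∧
      (Lt E ro bt ch l p' p → (On E bt l x p' ∧ ¬ On E bt l y q'))

/-- the number `x` of level `l + 1` is `0` -/
def Zer (E : V → V → Prop) (ro : V → ℕ) (bt : V → Bool) (l : ℕ) (x : V) : Prop :=
  ∀ p, Pos E ro l x p → ¬ On E bt l x p

/-- all bits of the number `x` of level `l + 1` are `1` -/
def Max (E : V → V → Prop) (ro : V → ℕ) (bt : V → Bool) (l : ℕ) (x : V) : Prop :=
  ∀ p, Pos E ro l x p → On E bt l x p

/-- the number of level `l` is at least the tower for `d - 1` -/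
def Hi (E : V → V → Prop) (ro : V → ℕ) (bt : V → Bool) (ch : V → Prop) : ℕ → V → Prop
  | 0, x => ro x = 0 ∧ ∀ v, ¬ CLt E (fun v => ro v = 0) ch x v
  | l + 1, x => ∃ p, Pos E ro l x p ∧ On E bt l x p ∧ Hi E ro bt ch l p

/-- edges between vertices of the roles `i` and `j` are allowed -/
def TEdge (L i j : ℕ) : Prop :=
  (i = 0 ∧ j = L + 2) ∨ (j = 0 ∧ i = L + 2) ∨ (j = i + 1 ∧ i ≤ L) ∨ (i = j + 1 ∧ j ≤ L)

/-- `y` is the coordinate `s` of the cell `z` -/
def Dg (E : V → V → Prop) (ro : V → ℕ) (mk : V → Bool) (L : ℕ) (s : Bool) (z y : V) : Prop :=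
  E z y ∧ ro y = L ∧ mk y = s

/-- The rules for a grid of cells whose coordinates are numbers of level `L`, `L ≥ 1`. -/
structure TRule (L : ℕ) (U : Bool → Bool → Bool → Bool → Q → Prop) (Hh Vv : Q → Q → Prop)
    (E : V → V → Prop) (ro : V → ℕ) (bt mk : V → Bool) (ti : V → Q) : Prop where
  rng : ∀ v, ro v ≤ L + 2
  edge : ∀ u v, E u v → TEdge L (ro u) (ro v)
  chn : Chn E (fun v => ro v = 0) (fun v => ro v = L + 2)
  par : ∀ v, 1 ≤ ro v → ro v ≤ L → ∃! u, E v u ∧ ro u = ro v + 1
  inj : ∀ l x y y', 1 ≤ l → l < L → ro x = l + 1 → Pos E ro l x y → Pos E ro l x y' →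
    Same E ro bt l y y' → y = y'
  zer : ∀ l x, l + 1 < L → ro x = l + 2 → ∃ y, Pos E ro (l + 1) x y ∧ Zer E ro bt l y
  suc : ∀ l x y, l + 1 < L → ro x = l + 2 → Pos E ro (l + 1) x y → Max E ro bt l y ∨
    ∃ y', Pos E ro (l + 1) x y' ∧ Suc E ro bt (fun v => ro v = L + 2) l y y'
  cel : ∀ z s, ro z = L + 1 → ∃! y, Dg E ro mk L s z y
  hi : ∃ z y, ro z = L + 1 ∧ Dg E ro mk L true z y ∧ Hi E ro bt (fun v => ro v = L + 2) L y
  grid : GridR U Hh Vv (fun z => ro z = L + 1)
    (fun s z w => ∀ x y, Dg E ro mk L s z x → Dg E ro mk L s w y → Same E ro bt L x y)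
    (fun s z w => ∀ x y, Dg E ro mk L s z x → Dg E ro mk L s w y →
      Suc E ro bt (fun v => ro v = L + 2) (L - 1) x y)
    (fun s z => ∀ x, Dg E ro mk L s z x → Zer E ro bt (L - 1) x) ti

/-! ### digits given by the adjacency to a block of the core

`ro v` is the role of `v`: `0`, `1` for the blocks of the core (`0` for the columns), `2`, `3` for the
chains, `4` for the cells. -/

/-- the role of the core `s` -/
def cr (s : Bool) : ℕ := if s = true then 0 else 1

/-- equal higher digits -/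
def HSame (E : V → V → Prop) (ro : V → ℕ) (s : Bool) (z w : V) : Prop :=
  ∀ v, ro v = cr s → (E z v ↔ E w v)

/-- the order of the block `s` -/
def BLt (E : V → V → Prop) (ro : V → ℕ) (s : Bool) (u v : V) : Prop :=
  CLt E (fun v => ro v = cr s) (fun v => ro v = 2 + cr s) u v

/-- the number given by the higher digits of `w` is the successor of that of `z` -/
def HSuc (E : V → V → Prop) (ro : V → ℕ) (s : Bool) (z w : V) : Prop :=
  ∃ v, ro v = cr s ∧ ¬ E z v ∧ E w v ∧ ∀ u, ro u = cr s →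
    (BLt E ro s v u → (E z u ↔ E w u)) ∧ (BLt E ro s u v → (E z u ∧ ¬ E w u))

/-- equal coordinates `s` -/
def VSame (E : V → V → Prop) (ro : V → ℕ) (lo : Bool → V → ℕ) (s : Bool) (z w : V) : Prop :=
  lo s z = lo s w ∧ HSame E ro s z w

/-- the coordinate `s` of `w` is the successor of that of `z`; `κ` is the number of the low bits -/
def VSuc (κ : ℕ) (E : V → V → Prop) (ro : V → ℕ) (lo : Bool → V → ℕ) (s : Bool) (z w : V) : Prop :=
  (lo s w = lo s z + 1 ∧ HSame E ro s z w) ∨ (lo s z + 1 = 2 ^ κ ∧ lo s w = 0 ∧ HSuc E ro s z w)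

/-- the coordinate is `0` -/
def VZer (E : V → V → Prop) (ro : V → ℕ) (lo : Bool → V → ℕ) (s : Bool) (z : V) : Prop :=
  lo s z = 0 ∧ ∀ v, ro v = cr s → ¬ E z v

/-- edges between vertices of the roles `i` and `j` are allowed -/
def VEdge (i j : ℕ) : Prop :=
  (i ≤ 1 ∧ (j = 2 + i ∨ j = 4)) ∨ (j ≤ 1 ∧ (i = 2 + j ∨ i = 4))

/-- The rules for a grid of cells whose coordinates are given by `κ` bits of the label and by the
adjacency to a block of the core. -/
structure VRule (κ : ℕ) (U : Bool → Bool → Bool → Bool → Q → Prop) (Hh Vv : Q → Q → Prop)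
    (E : V → V → Prop) (ro : V → ℕ) (lo : Bool → V → ℕ) (ti : V → Q) : Prop where
  rng : ∀ v, ro v ≤ 4
  low : ∀ s v, lo s v < 2 ^ κ
  edge : ∀ u v, E u v → VEdge (ro u) (ro v)
  chn : ∀ s, Chn E (fun v => ro v = cr s) (fun v => ro v = 2 + cr s)
  hi : ∀ s, ∃ z v, ro z = 4 ∧ ro v = cr s ∧ E z v ∧ ∀ u, ¬ BLt E ro s v u
  grid : GridR U Hh Vv (fun z => ro z = 4) (VSame E ro lo) (VSuc κ E ro lo) (VZer E ro lo) ti

end

end Pool.Agent.H54.WB
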