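import Pool.Agent.H54.WB.TargetsA
import Pool.Agent.H69.VR.MGram
import Pool.Agent.H8.MP.Per

/-!
# Widths bounded by a function of the size: targets, second part (the tame side)
-/

set_option autoImplicit false

namespace Pool.Agent.H54.WB

open Pool.Agent.H69.Sp Pool.Agent.H69.VR Pool.Agent.H8.VR Pool.Agent.H8.MC Pool.Agent.H8.JS
open Pool.Agent.H76.ADV
open Pool.Agent.H8.MP (EvPer Der)

/-! ### normal forms -/

/-- linear elimination forests for the path-width -/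
def Width.lin : Width → Bool
  | .path => true
  | _ => false

/-- the tree-depth -/
def Width.lev : Width → Bool
  | .depth => true
  | _ => false

/-- the number of the positions -/
def Width.ps : Width → ℕ → ℕ
  | .depth, k => k
  | _, k => k + 1

section
variable {V : Type}

/-- an elimination forest with positions `po v < k` -/
structure Adm (W : Width) (E : V → V → Prop) (k : ℕ) (anc : V → V → Prop) (po : V → ℕ) : Prop where
  forest : IsForest anc
  lin : W.lin = true → ∀ u v, u = v ∨ anc u v ∨ anc v u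
  lt : ∀ v, po v < k
  lev : W.lev = true → ∀ u v, anc u v → po u < po v
  cmp : ∀ u v, E u v → anc u v ∨ anc v u
  sep : ∀ u v w, anc u v → (w = v ∨ anc v w) → E u w → po u ≠ po v

end

/-- normal form of the width parameters -/
def T_NFE : Prop := ∀ (W : Width) (V : Type) [Finite V] (G : SimpleGraph V) (k : ℕ),
  W.LE G k ↔ ∃ anc po, Adm W G.Adj (W.ps k) anc po

/-- fewer positions than vertices -/
def T_NFC : Prop := ∀ (W : Width) (V : Type) [Finite V] (E : V → V → Prop) (k : ℕ)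
  (anc : V → V → Prop) (po : V → ℕ), Adm W E k anc po → ∃ po', Adm W E (min k (Nat.card V)) anc po'

/-! ### grammars -/

/-- the colours: sets of positions -/
abbrev Co (k : ℕ) : Type := Fin k → Bool

/-- the sorts: `inl l`: general structures (for the tree-depth: all positions are at least `l`),
`inr i`: a vertex with the position `i` -/
abbrev So (k : ℕ) : Type := Fin (k + 1) ⊕ Fin k

/-- the grammar `H` generates the structures with normal forms for `W` and `k` -/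
structure IsGW (W : Width) (k m : ℕ) (H : Gram (So k) (Co k)) : Prop where
  pts : ∀ x : Pt (So k) (Co k), (∀ i, ¬ x.lp i) → (∀ i, m ≤ i → ¬ x.un i) → (x ∈ H.pts ↔
    ∃ i : Fin k, x.q i = false ∧ (x.s = .inr i ∨ ∃ l : Fin (k + 1), x.s = .inl l ∧
      (W.lev = true → l.val ≤ i.val) ∧ (W.lev = false → l.val = 0)))
  pts' : ∀ x ∈ H.pts, (∀ i, ¬ x.lp i) ∧ ∀ i, m ≤ i → ¬ x.un i
  ops : ∀ o : Op (So k) (Co k), o ∈ H.ops ↔ o.D = {n | 0 < n} ∧
    ((W.lin = false ∧ (∃ l, o.s = .inl l ∧ o.t = .inl l ∧ o.u = .inl l) ∧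
      o.l = (fun _ _ _ => False) ∧ o.r = (fun _ _ _ => False) ∧ o.f = id ∧ o.g = id) ∨
    ∃ (i : Fin k) (l l' : Fin (k + 1)), o.s = .inr i ∧ o.t = .inl l' ∧ o.u = .inl l ∧
      (W.lev = true → l.val ≤ i.val ∧ l'.val = i.val + 1) ∧
      (W.lev = false → l.val = 0 ∧ l'.val = 0) ∧
      o.l = (fun j _ q => j = 0 ∧ q i = true) ∧ o.r = (fun j _ q => j = 0 ∧ q i = true) ∧
      o.f = id ∧ o.g = fun q j => if j = i then false else q j)

/-- the grammars exist -/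
def T_GEX : Prop := ∀ (W : Width) (k m : ℕ), ∃ H : Gram (So k) (Co k), IsGW W k m H

/-- from normal forms to derivations -/
def T_WG1 : Prop := ∀ (W : Width) (k m : ℕ) (H : Gram (So k) (Co k)), 0 < m → IsGW W k m H →
  ∀ (V : Type) [Finite V] [Nonempty V] (G : SimpleGraph V) (P : ℕ → V → Prop)
    (anc : V → V → Prop) (po : V → ℕ), Adm W G.Adj k anc po →
    ∃ c, H.Gen m P (fun i u v => i = 0 ∧ G.Adj u v) (.inl 0) Set.univ c

/-- from derivations to normal forms -/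
def T_WG2 : Prop := ∀ (W : Width) (k m : ℕ) (H : Gram (So k) (Co k)), 0 < m → IsGW W k m H →
  ∀ (V : Type) [Finite V] [Nonempty V] (P : ℕ → V → Prop) (R : ℕ → V → V → Prop) (c : V → Co k),
    H.Gen m P R (.inl 0) Set.univ c →
      (∀ a b, R 0 a b → R 0 b a) ∧ (∀ a, ¬ R 0 a a) ∧ ∃ anc po, Adm W (R 0) k anc po

/-- the sizes of the models of `Ψ` in which the parameter is at most `k` -/
def SZ (W : Width) (Ψ : MS) (k : ℕ) : Set ℕ := specF (fun _ G => W.LE G k) Ψ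

/-- the sizes are the derivable sizes of a grammar with few sorts -/
def T_WGS : Prop := ∀ (W : Width) (Ψ : MS), BinZero Ψ → ∃ Ψ' : MS, ∀ k,
  ∃ (H : Gram (Option (So (W.ps k) × Ψ'.T (Co (W.ps k)))) (Co (W.ps k)))
    (s : Option (So (W.ps k) × Ψ'.T (Co (W.ps k)))), ∀ n, n ∈ SZ W Ψ k ↔ Der H s n

/-! ### explicit periods -/

/-- downward pumping -/
def T_DWN : Prop := ∀ (N Q : Type) [Finite N] (H : Gram N Q) (T P : ℕ), Nat.card N ≤ T → 0 < P →
  ∀ s n, Der H s n → 2 ^ (T * P) < n →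
    ∃ x, x < n ∧ n ≤ x + 2 ^ (T * P) ∧ x ≡ n [MOD P] ∧ Der H s x

/-- the bound for the sizes -/
def cc (T : ℕ) : ℕ := 2 ^ T + 2 ^ (T * (2 ^ T).factorial) + 1

/-- explicit period and preperiod -/
def T_PER : Prop := ∀ (N Q : Type) [Finite N] (H : Gram N Q) (T : ℕ), Nat.card N ≤ T →
  ∀ s m n, cc T ≤ m → cc T ≤ n → m ≡ n [MOD (2 ^ T).factorial] → (Der H s m ↔ Der H s n)

/-- the number of the types -/
def T_TYC : Prop := ∀ Ψ : MS, ∃ h c, ∀ k, Nat.card (Ψ.T (Co k)) ≤ Tw h (k + c)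

/-- the sizes of the models of width at most `k` -/
def T_PDK : Prop := ∀ (W : Width) (Ψ : MS), BinZero Ψ → ∃ h c, ∀ k m n, Tw h (k + c) ≤ m →
  Tw h (k + c) ≤ n → (∀ g, 0 < g → g ≤ Tw h (k + c) → m ≡ n [MOD g]) →
    (m ∈ SZ W Ψ k ↔ n ∈ SZ W Ψ k)

/-! ### brute force -/

/-- second-order logic over the numbers below `n`, with their order and a number `k` -/
inductive SO : Type
  | lt (x y : ℕ) : SO
  | ltk (x : ℕ) : SO
  | eq (x y : ℕ) : SO
  | mem (x X : ℕ) : SO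
  | rel (i x y : ℕ) : SO
  | mod (X q r : ℕ) : SO
  | neg (φ : SO) : SO
  | and (φ ψ : SO) : SO
  | ex (x : ℕ) (φ : SO) : SO
  | exS (X : ℕ) (φ : SO) : SO
  | exR (i : ℕ) (φ : SO) : SO

/-- satisfaction -/
def SO.Sat (n k : ℕ) : SO → (ℕ → ℕ) → (ℕ → ℕ → Prop) → (ℕ → ℕ → ℕ → Prop) → Prop
  | .lt x y, e, _, _ => e x < e y
  | .ltk x, e, _, _ => e x < k
  | .eq x y, e, _, _ => e x = e y
  | .mem x X, e, V, _ => V X (e x)
  | .rel i x y, e, _, R => R i (e x) (e y)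
  | .mod X q r, _, V, _ => {a | a < n ∧ V X a}.ncard ≡ r [MOD q + 1]
  | .neg φ, e, V, R => ¬ φ.Sat n k e V R
  | .and φ ψ, e, V, R => φ.Sat n k e V R ∧ ψ.Sat n k e V R
  | .ex x φ, e, V, R => ∃ a < n, φ.Sat n k (Function.update e x a) V R
  | .exS X φ, e, V, R => ∃ S : ℕ → Prop, (∀ a, S a → a < n) ∧ φ.Sat n k e (Function.update V X S) R
  | .exR i φ, e, V, R => ∃ r : ℕ → ℕ → Prop, (∀ a b, r a b → a < n ∧ b < n) ∧
      φ.Sat n k e V (Function.update R i r)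

/-- truth -/
def SO.True (φ : SO) (n k : ℕ) : Prop :=
  φ.Sat n k (fun _ => 0) (fun _ _ => False) (fun _ _ _ => False)

/-- second-order logic on numbers of the size of the root of the logarithm is in the calculus -/
def T_SOR : Prop := ∀ (φ : SO) (nf kf : ℕ → ℕ), GR nf → GR kf →
  (∀ u, nf u * nf u ≤ Nat.log 2 u) →
    RL (fun u => φ.True (nf u) (kf u)) ∧ RL (fun u => ¬ φ.True (nf u) (kf u))

/-- the sizes of the models are defined in second-order logic -/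
def T_SOW : Prop := ∀ (W : Width) (Ψ : MS), BinZero Ψ → ∃ φ : SO, ∀ n k, 0 < n →
  (n ∈ SZ W Ψ k ↔ φ.True n (W.ps k))

/-- the set of the models is in the calculus -/
def T_BRU : Prop := ∀ (W : Width) (Ψ : MS), BinZero Ψ → ∀ (nf kf : ℕ → ℕ), GR nf → GR kf →
  (∀ u, nf u * nf u ≤ Nat.log 2 u) →
    RL (fun u => nf u ∈ SZ W Ψ (kf u)) ∧ RL (fun u => nf u ∉ SZ W Ψ (kf u))

/-! ### logarithms -/

/-- functions below all iterated logarithms -/
def T_LOW : Prop := ∀ f : ℕ → ℕ, (∀ k, ∃ n₀, ∀ n, n₀ ≤ n → f n ≤ ilog k n) →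
  ∀ h c j, ∃ n₀, ∀ n, n₀ ≤ n → Tw h (f n + c) ≤ ilog j n

/-- factorials of iterated logarithms -/
def T_LGF : Prop := (∃ n₀, ∀ n, n₀ ≤ n → 2 * (ilog 6 n).factorial ≤ ilog 3 n) ∧
  ∀ n, ilog 3 n * ilog 3 n ≤ Nat.log 2 n

/-- the tame side -/
def T_TAM : Prop := ∀ (W : Width) (f : ℕ → ℕ), (∀ k, ∃ n₀, ∀ n, n₀ ≤ n → f n ≤ ilog k n) →
  SpecFun f → ∀ Ψ : MS, BinZero Ψ →
    IsSpectrum (specF (W.upTo f) Ψ) ∧ IsSpectrum (posCompl (specF (W.upTo f) Ψ))

/-! ### twins -/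

section
variable {A : Type}

/-- the elements of `S` are twins -/
structure Twins (m : ℕ) (P : ℕ → A → Prop) (E : A → A → Prop) (S : Set A) : Prop where
  un : ∀ a ∈ S, ∀ b ∈ S, ∀ i < m, (P i a ↔ P i b)
  adj : ∀ a ∈ S, ∀ b ∈ S, ∀ x, x ∉ S → ((E x a ↔ E x b) ∧ (E a x ↔ E b x))
  ind : ∀ a ∈ S, ∀ b ∈ S, ¬ E a b

/-- the map which sends the new elements to `w` -/
def ret (q : ℕ) (w : A) : A ⊕ Fin q → A := Sum.elim id fun _ => w

end

/-- twins can be added -/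
def T_TWN : Prop := ∀ (Ψ : MS) (m : ℕ), Ψ.Below m → ∃ q t, 0 < q ∧ 0 < t ∧
  ∀ (A : Type) [Finite A] (P : ℕ → A → Prop) (E : A → A → Prop) (S : Set A) (w : A),
    Twins m P E S → w ∈ S → t ≤ S.ncard →
    ((∀ (e : ℕ → A) (V : ℕ → Set A), Ψ.Sat P (fun _ => E) e V) ↔
      ∀ (e : ℕ → A ⊕ Fin q) (V : ℕ → Set (A ⊕ Fin q)),
        Ψ.Sat (fun i x => P i (ret q w x)) (fun _ x y => E (ret q w x) (ret q w y)) e V)

/-- the tame side for the vertex cover number -/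
def T_VTA : Prop := ∀ f : ℕ → ℕ, Monotone f → (∀ c, ∃ n₀, ∀ n, n₀ ≤ n → f n + c ≤ Nat.log 2 n) →
  ∀ Ψ : MS, BinZero Ψ → EvPer (specF (coverUpTo f) Ψ)

end Pool.Agent.H54.WB
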