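import Pool.Agent.H54.WB.TargetsB
import Pool.Agent.H8.VR.Cor

/-!
# Widths bounded by a function of the size: targets, third part (NLC-width, clique-width)
-/

set_option autoImplicit false

namespace Pool.Agent.H54.WB

open Pool.Agent.H69.Sp Pool.Agent.H69.VR Pool.Agent.H8.VR Pool.Agent.H8.MC Pool.Agent.H8.JS
open Pool.Agent.H76.ADV
open Pool.Agent.H8.MP (EvPer Der)

/-- The NLC-width is at most `k`: the graph is built with `k` colours from one-vertex graphs by the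
operations which put two graphs side by side, add edges between them according to the colours, and
recolour. -/
def NLCWidthLE {V : Type} (G : SimpleGraph V) (k : ℕ) : Prop :=
  ∃ c, NLC k 1 (fun _ => G.Adj) Set.univ c

/-- The finite graphs in which the NLC-width is at most `f n`, for `n` vertices. -/
def nlcUpTo (f : ℕ → ℕ) : GClass := fun n G => NLCWidthLE G (f n)

/-- the sizes of the models of `Ψ` with NLC-width at most `k` -/
def SN (Ψ : MS) (k : ℕ) : Set ℕ := specF (fun _ G => NLCWidthLE G k) Ψ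

/-- the tame side, general form -/
def T_TAG : Prop := ∀ Z : ℕ → Set ℕ, (∀ k, ∀ n ∈ Z k, 0 < n) →
  (∃ h c, ∀ k m n, Tw h (k + c) ≤ m → Tw h (k + c) ≤ n →
    (∀ g, 0 < g → g ≤ Tw h (k + c) → m ≡ n [MOD g]) → (m ∈ Z k ↔ n ∈ Z k)) →
  (∀ (nf kf : ℕ → ℕ), GR nf → GR kf → (∀ u, nf u * nf u ≤ Nat.log 2 u) →
    RL (fun u => nf u ∈ Z (kf u)) ∧ RL (fun u => nf u ∉ Z (kf u))) →
  ∀ f : ℕ → ℕ, (∀ k, ∃ n₀, ∀ n, n₀ ≤ n → f n ≤ ilog k n) → SpecFun f →
    IsSpectrum {n | n ∈ Z (f n)} ∧ IsSpectrum (posCompl {n | n ∈ Z (f n)})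

/-- the number of the types -/
def T_TYF : Prop := ∀ Ψ : MS, ∃ h c, ∀ k, Nat.card (Ψ.T (Fin k)) ≤ Tw h (k + c)

/-- the sizes are the derivable sizes of a grammar with few sorts -/
def T_NGS : Prop := ∀ Ψ : MS, BinZero Ψ → ∃ Ψ' : MS, ∀ k,
  ∃ (H : Gram (Option (Unit × Ψ'.T (Fin k))) (Fin k)) (s : Option (Unit × Ψ'.T (Fin k))),
    ∀ n, n ∈ SN Ψ k ↔ Der H s n

/-- explicit periods for the NLC-width -/
def T_NPD : Prop := ∀ Ψ : MS, BinZero Ψ → ∃ h c, ∀ k m n, Tw h (k + c) ≤ m →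
  Tw h (k + c) ≤ n → (∀ g, 0 < g → g ≤ Tw h (k + c) → m ≡ n [MOD g]) → (m ∈ SN Ψ k ↔ n ∈ SN Ψ k)

/-- a binary tree of intervals -/
structure IntTree (n : ℕ) (T : ℕ → ℕ → Prop) : Prop where
  top : T 0 (n - 1)
  le : ∀ a b, T a b → a ≤ b ∧ b < n
  split : ∀ a b, T a b → a < b → ∃ c, a ≤ c ∧ c < b ∧ T a c ∧ T (c + 1) b

/-- the vertices in every interval of the tree have at most `k` different neighbourhoods outside of the
interval -/
def FewCl (k n : ℕ) (E : ℕ → ℕ → Prop) (T : ℕ → ℕ → Prop) : Prop :=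
  ∀ a b, T a b → ∃ ρ : ℕ → ℕ, (∀ x, a ≤ x → x ≤ b → ρ x < k ∧ ρ x < n) ∧
    ∀ x y, a ≤ x → x ≤ b → a ≤ y → y ≤ b →
      (ρ x = ρ y ↔ ∀ z < n, (z < a ∨ b < z) → (E x z ↔ E y z))

/-- from expressions to trees of intervals -/
def T_MW1 : Prop := ∀ (k n : ℕ) (G : SimpleGraph (Fin n)), 0 < n → NLCWidthLE G k →
  ∃ (σ : Fin n ≃ Fin n) (T : ℕ → ℕ → Prop), IntTree n T ∧
    FewCl k n (fun x y => ∃ (hx : x < n) (hy : y < n), G.Adj (σ ⟨x, hx⟩) (σ ⟨y, hy⟩)) T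

/-- from trees of intervals to expressions -/
def T_MW2 : Prop := ∀ (k n : ℕ) (G : SimpleGraph (Fin n)) (T : ℕ → ℕ → Prop), 0 < n →
  IntTree n T → FewCl k n (fun x y => ∃ (hx : x < n) (hy : y < n), G.Adj ⟨x, hx⟩ ⟨y, hy⟩) T →
    NLCWidthLE G k

/-- the sizes of the models are defined in second-order logic -/
def T_NSO : Prop := ∀ Ψ : MS, BinZero Ψ → ∃ φ : SO, ∀ n k, 0 < n → (n ∈ SN Ψ k ↔ φ.True n k)

/-- the tame side for the NLC-width -/
def T_NTM : Prop := ∀ f : ℕ → ℕ, (∀ k, ∃ n₀, ∀ n, n₀ ≤ n → f n ≤ ilog k n) → SpecFun f →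
  ∀ Ψ : MS, BinZero Ψ → IsSpectrum (specF (nlcUpTo f) Ψ) ∧
    IsSpectrum (posCompl (specF (nlcUpTo f) Ψ))

/-- small tree-depth: small NLC-width; monotonicity -/
def T_TDN : Prop := (∀ (V : Type) [Finite V] [Nonempty V] (G : SimpleGraph V) (k : ℕ),
  TreeDepthLE G k → NLCWidthLE G (2 ^ k)) ∧
  ∀ (V : Type) (G : SimpleGraph V) (k l : ℕ), k ≤ l → NLCWidthLE G k → NLCWidthLE G l

end Pool.Agent.H54.WB
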